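import Pool.Agent.Helper22.GradMain

/-!
Every preprojective right module over a graded right artinian ring is gradable.

Right `R`-modules are modules over `Rᵐᵒᵖ`; `R` is right artinian iff `IsArtinianRing Rᵐᵒᵖ`.
-/

set_option autoImplicit false

namespace Pool.Agent.Results.MP_12d20c_al.PreprojectiveGradable

open MulOpposite

universe v u

/-- `𝒩` makes the right `R`-module `N` a graded right module over the graded ring `(R, 𝒜)`:
`N` is the internal direct sum of the `𝒩 i`, and `𝒩 i * 𝒜 j ⊆ 𝒩 (i + j)`. -/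
def IsGrading {R : Type v} [Ring R] (𝒜 : ℤ → AddSubgroup R) {N : Type u} [AddCommGroup N]
    [Module Rᵐᵒᵖ N] (𝒩 : ℤ → AddSubgroup N) : Prop :=
  DirectSum.IsInternal 𝒩 ∧ ∀ i j : ℤ, ∀ n ∈ 𝒩 i, ∀ r ∈ 𝒜 j, op r • n ∈ 𝒩 (i + j)

/-- The right `R`-module `M` is gradable: it is isomorphic to a graded right `R`-module. -/
def Gradable {R : Type v} [Ring R] (𝒜 : ℤ → AddSubgroup R) (M : Type u) [AddCommGroup M]
    [Module Rᵐᵒᵖ M] : Prop :=
  ∃ (N : Type u) (_ : AddCommGroup N) (_ : Module Rᵐᵒᵖ N) (𝒩 : ℤ → AddSubgroup N),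
    IsGrading 𝒜 𝒩 ∧ Nonempty (M ≃ₗ[Rᵐᵒᵖ] N)

/-- The right `R`-module `M` is indecomposable. -/
def Indecomposable (R : Type v) [Ring R] (M : Type u) [AddCommGroup M] [Module Rᵐᵒᵖ M] : Prop :=
  Nontrivial M ∧ ∀ A B : Submodule Rᵐᵒᵖ M, IsCompl A B → A = ⊥ ∨ B = ⊥

/-- `W` lies in `add(X)`: `W` is isomorphic to a direct summand of a finite direct sum of
copies of `X`. -/
def InAdd (R : Type v) [Ring R] (X W : Type u) [AddCommGroup X] [Module Rᵐᵒᵖ X] [AddCommGroup W]
    [Module Rᵐᵒᵖ W] : Prop :=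
  ∃ (n : ℕ) (C D : Submodule Rᵐᵒᵖ (Fin n → X)), IsCompl C D ∧ Nonempty (W ≃ₗ[Rᵐᵒᵖ] C)

/-- The right `R`-module `Y` is preprojective: it is finitely presented and indecomposable, and
there is a finitely presented `X` with `Y ∉ add(X)` such that whenever `f : Z → Y` is a surjection
from a finitely presented module that does not split, then `Z` has a nonzero direct summand in
`add(X)`. -/
def Preprojective (R : Type v) [Ring R] (Y : Type u) [AddCommGroup Y] [Module Rᵐᵒᵖ Y] : Prop :=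
  Module.FinitePresentation Rᵐᵒᵖ Y ∧ Indecomposable R Y ∧
  ∃ (X : Type u) (_ : AddCommGroup X) (_ : Module Rᵐᵒᵖ X),
    Module.FinitePresentation Rᵐᵒᵖ X ∧ ¬ InAdd R X Y ∧
    ∀ (Z : Type u) [AddCommGroup Z] [Module Rᵐᵒᵖ Z], Module.FinitePresentation Rᵐᵒᵖ Z →
      ∀ f : Z →ₗ[Rᵐᵒᵖ] Y, Function.Surjective f →
        (¬ ∃ s : Y →ₗ[Rᵐᵒᵖ] Z, f ∘ₗ s = LinearMap.id) →
        ∃ C D : Submodule Rᵐᵒᵖ Z, IsCompl C D ∧ C ≠ ⊥ ∧ InAdd R X C

open Helper22.Grad

theorem inAdd_conv {R : Type v} [Ring R] {X W : Type u} [AddCommGroup X] [Module Rᵐᵒᵖ X]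
    [AddCommGroup W] [Module Rᵐᵒᵖ W] (h : InAdd R X W) : Helper22.Grad.InAdd Rᵐᵒᵖ X W := by
  obtain ⟨n, C, D, hCD, ⟨e⟩⟩ := h
  refine ⟨n, C.subtype ∘ₗ e.toLinearMap, e.symm.toLinearMap ∘ₗ C.projectionOnto D hCD, ?_⟩
  intro w
  change e.symm (C.projectionOnto D hCD (e w : Fin n → X)) = w
  rw [Submodule.projectionOnto_apply_left, e.symm_apply_apply]

section ring

variable {R : Type v} [Ring R] (𝒜 : ℤ → AddSubgroup R) [GradedRing 𝒜]

/-- component maps of the opposite ring -/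
def opc (i : ℤ) : Rᵐᵒᵖ →+ Rᵐᵒᵖ :=
  (opAddEquiv.toAddMonoidHom.comp (GradedRing.proj 𝒜 i)).comp opAddEquiv.symm.toAddMonoidHom

theorem opc_apply (i : ℤ) (s : Rᵐᵒᵖ) :
    opc 𝒜 i s = op ((DirectSum.decompose 𝒜 (unop s) i : 𝒜 i) : R) := rfl

/-- the opposite ring as a graded ring in the sense of `RGr` -/
def opRGr : RGr Rᵐᵒᵖ where
  c := opc 𝒜
  fin s := by
    classical
    refine (Finset.finite_toSet (DirectSum.decompose 𝒜 (unop s)).support).subset ?_
    intro i hi
    rw [Finset.mem_coe, DFinsupp.mem_support_iff]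
    intro h
    apply hi
    rw [opc_apply]
    change DirectSum.decompose 𝒜 (unop s) i = 0 at h
    rw [h]; rfl
  sum s := by
    classical
    rw [finsum_eq_sum_of_support_subset (s := (DirectSum.decompose 𝒜 (unop s)).support)]
    · apply unop_injective
      have h1 : unop (∑ i ∈ (DirectSum.decompose 𝒜 (unop s)).support, opc 𝒜 i s) =
          ∑ i ∈ (DirectSum.decompose 𝒜 (unop s)).support, unop (opc 𝒜 i s) :=
        map_sum opAddEquiv.symm _ _
      rw [h1]
      exact DirectSum.sum_support_decompose 𝒜 (unop s)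
    · intro i hi
      rw [Finset.mem_coe, DFinsupp.mem_support_iff]
      intro h
      apply hi
      change opc 𝒜 i s = 0
      rw [opc_apply]
      change DirectSum.decompose 𝒜 (unop s) i = 0 at h
      rw [h]; rfl
  orth i j s h := by
    rw [opc_apply, opc_apply, unop_op, DirectSum.decompose_of_mem_ne 𝒜 (i := j) (j := i)
      (SetLike.coe_mem _) (Ne.symm h), op_zero]
  mul i j s t := by
    apply unop_injective
    rw [opc_apply, opc_apply, opc_apply, unop_op, unop_mul, unop_op, unop_op]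
    apply DirectSum.decompose_of_mem_same 𝒜
    rw [add_comm]
    exact SetLike.mul_mem_graded (SetLike.coe_mem _) (SetLike.coe_mem _)
  one := by
    rw [opc_apply, unop_one, DirectSum.decompose_of_mem_same 𝒜 SetLike.GradedOne.one_mem, op_one]

theorem opRGr_c_of_mem {j : ℤ} {r : R} (hr : r ∈ 𝒜 j) : (opRGr 𝒜).c j (op r) = op r := by
  change opc 𝒜 j (op r) = op r
  rw [opc_apply, unop_op, DirectSum.decompose_of_mem_same 𝒜 hr]

variable {M : Type u} [AddCommGroup M] [Module Rᵐᵒᵖ M]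

/-- the subgroups of a grading given by component maps -/
def comps (g : Gr (opRGr 𝒜) M) (i : ℤ) : AddSubgroup M := (g.c i).range

theorem comps_c {g : Gr (opRGr 𝒜) M} {i : ℤ} {m : M} (hm : m ∈ comps 𝒜 g i) : g.c i m = m := by
  obtain ⟨m', rfl⟩ := hm
  exact g.idem i m'

theorem comps_ne {g : Gr (opRGr 𝒜) M} {i j : ℤ} (hij : i ≠ j) {m : M} (hm : m ∈ comps 𝒜 g j) :
    g.c i m = 0 := by
  obtain ⟨m', rfl⟩ := hm
  exact g.orth i j m' hij

theorem comps_internal (g : Gr (opRGr 𝒜) M) : DirectSum.IsInternal (comps 𝒜 g) := by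
  have key : ∀ (x : DirectSum ℤ fun i => comps 𝒜 g i) (i : ℤ),
      g.c i (DirectSum.coeAddMonoidHom (comps 𝒜 g) x) = x i := by
    intro x i
    induction x using DirectSum.induction_on with
    | zero => simp
    | of j m =>
      rw [DirectSum.coeAddMonoidHom_of]
      by_cases h : i = j
      · subst h
        rw [comps_c 𝒜 m.2, DirectSum.of_eq_same]
      · rw [comps_ne 𝒜 h m.2, DirectSum.of_eq_of_ne _ _ _ h]
        rfl
    | add x y hx hy => rw [map_add, map_add, hx, hy]; rfl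
  constructor
  · intro x y hxy
    refine DFinsupp.ext fun i => ?_
    apply Subtype.ext
    have h1 := key x i
    have h2 := key y i
    rw [hxy] at h1
    exact h1.symm.trans h2
  · intro m
    induction m using g.toDec.induction with
    | h0 => exact ⟨0, map_zero _⟩
    | hadd x y hx hy =>
      obtain ⟨a, rfl⟩ := hx
      obtain ⟨b, rfl⟩ := hy
      exact ⟨a + b, map_add _ _ _⟩
    | hhom i m =>
      exact ⟨DirectSum.of (fun i => comps 𝒜 g i) i ⟨g.c i m, m, rfl⟩,
        DirectSum.coeAddMonoidHom_of _ _ _⟩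

theorem gradable_of_gr (g : Gr (opRGr 𝒜) M) : Gradable 𝒜 M := by
  refine ⟨M, inferInstance, inferInstance, comps 𝒜 g, ⟨comps_internal 𝒜 g, ?_⟩,
    ⟨LinearEquiv.refl _ _⟩⟩
  intro i j m hm r hr
  refine ⟨op r • m, ?_⟩
  have h := g.smul j i (op r) m
  rw [opRGr_c_of_mem 𝒜 hr, comps_c 𝒜 hm] at h
  rw [add_comm]
  exact h

end ring

/-- Let `R` be a `ℤ`-graded ring that is right artinian. Then every preprojective right `R`-module
is gradable. -/
theorem result (R : Type v) [Ring R] (𝒜 : ℤ → AddSubgroup R) [GradedRing 𝒜]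
    [IsArtinianRing Rᵐᵒᵖ] (Y : Type u) [AddCommGroup Y] [Module Rᵐᵒᵖ Y]
    (hY : Preprojective R Y) : Gradable 𝒜 Y := by
  obtain ⟨hYfp, hYind, X, _, _, hXfp, _, hX⟩ := hY
  have : Module.Finite Rᵐᵒᵖ Y := inferInstance
  have : Module.Finite Rᵐᵒᵖ X := inferInstance
  obtain ⟨g⟩ := main_left (opRGr 𝒜) Y hYind X (by
    intro B _ _ hB F hF hns
    have hBfp : Module.FinitePresentation Rᵐᵒᵖ B := Module.finitePresentation_of_finite Rᵐᵒᵖ B
    obtain ⟨C, D, hCD, hC0, hCadd⟩ := hX B hBfp F hF (by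
      rintro ⟨s, hs⟩
      exact hns ⟨s, fun y => LinearMap.congr_fun hs y⟩)
    refine ⟨C, inferInstance, inferInstance, Submodule.nontrivial_iff_ne_bot.mpr hC0,
      inAdd_conv hCadd, C.subtype, C.projectionOnto D hCD, fun c => ?_⟩
    exact Submodule.projectionOnto_apply_left hCD c)
  exact gradable_of_gr 𝒜 g

end Pool.Agent.Results.MP_12d20c_al.PreprojectiveGradable
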